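import Pool.Agent.H78.KB.Inv

/-!
# Columns of a Gaussian matrix

* `swap` : exchange of rows and columns preserves the measure;
* `marg` : projection to part of the coordinates;
* `ball` : small balls;
* `fixed` : distance of a Gaussian vector to the span of few fixed vectors.
-/

set_option autoImplicit false

open MeasureTheory MeasureTheory.Measure Finset
open scoped ENNReal

namespace Pool.Agent.H78.KB

section

variable {R J X : Type*} [Fintype R] [Fintype J] [MeasurableSpace X]

theorem uncurry_pres (μ : Measure X) [SigmaFinite μ] :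
    MeasurePreserving (fun (Z : R → J → X) (p : R × J) => Z p.1 p.2)
      (Measure.pi (fun _ : R => Measure.pi (fun _ : J => μ))) (Measure.pi (fun _ : R × J => μ)) := by
  classical
  have hm : Measurable (fun (Z : R → J → X) (p : R × J) => Z p.1 p.2) := by
    fun_prop
  refine ⟨hm, (Measure.pi_eq fun s hs => ?_).symm⟩
  rw [Measure.map_apply hm (MeasurableSet.univ_pi hs)]
  have h1 : (fun (Z : R → J → X) (p : R × J) => Z p.1 p.2) ⁻¹' (Set.univ.pi s) =
      Set.univ.pi (fun i => Set.univ.pi (fun j => s (i, j))) := by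
    ext Z
    simp only [Set.mem_preimage, Set.mem_pi, Set.mem_univ, forall_true_left, Prod.forall]
  rw [h1, Measure.pi_pi]
  simp_rw [Measure.pi_pi]
  rw [← Finset.univ_product_univ, Finset.prod_product]

theorem uncurry_pres' (μ : Measure X) [SigmaFinite μ] :
    MeasurePreserving (fun (Z : J → R → X) (p : R × J) => Z p.2 p.1)
      (Measure.pi (fun _ : J => Measure.pi (fun _ : R => μ))) (Measure.pi (fun _ : R × J => μ)) := by
  classical
  have hm : Measurable (fun (Z : J → R → X) (p : R × J) => Z p.2 p.1) := by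
    fun_prop
  refine ⟨hm, (Measure.pi_eq fun s hs => ?_).symm⟩
  rw [Measure.map_apply hm (MeasurableSet.univ_pi hs)]
  have h1 : (fun (Z : J → R → X) (p : R × J) => Z p.2 p.1) ⁻¹' (Set.univ.pi s) =
      Set.univ.pi (fun j => Set.univ.pi (fun i => s (i, j))) := by
    ext Z
    simp only [Set.mem_preimage, Set.mem_pi, Set.mem_univ, forall_true_left, Prod.forall]
    exact ⟨fun h a b => h b a, fun h a b => h b a⟩
  rw [h1, Measure.pi_pi]
  simp_rw [Measure.pi_pi]
  rw [← Finset.univ_product_univ, Finset.prod_product_right]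

/-- Measure of a set of matrices in terms of the columns. -/
theorem swap (μ : Measure X) [SigmaFinite μ] (s : Set (R → J → X)) (hs : MeasurableSet s) :
    (Measure.pi (fun _ : R => Measure.pi (fun _ : J => μ))) s =
      (Measure.pi (fun _ : J => Measure.pi (fun _ : R => μ))) {Z | (fun i j => Z j i) ∈ s} := by
  have hc : Measurable (fun (W : R × J → X) (i : R) (j : J) => W (i, j)) := by fun_prop
  have ht : MeasurableSet ((fun (W : R × J → X) (i : R) (j : J) => W (i, j)) ⁻¹' s) := hc hs
  have h1 := (uncurry_pres (R := R) (J := J) μ).measure_preimage ht.nullMeasurableSet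
  have h2 := (uncurry_pres' (R := R) (J := J) μ).measure_preimage ht.nullMeasurableSet
  have e1 : (fun (Z : R → J → X) (p : R × J) => Z p.1 p.2) ⁻¹'
      ((fun (W : R × J → X) (i : R) (j : J) => W (i, j)) ⁻¹' s) = s := by
    ext Z; simp
  have e2 : (fun (Z : J → R → X) (p : R × J) => Z p.2 p.1) ⁻¹'
      ((fun (W : R × J → X) (i : R) (j : J) => W (i, j)) ⁻¹' s) = {Z | (fun i j => Z j i) ∈ s} := by
    ext Z; simp
  rw [e1] at h1
  rw [e2] at h2
  rw [h1, h2]

/-- Projection to part of the coordinates. -/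
theorem marg (μ : Measure X) [IsProbabilityMeasure μ] (e : J → R) (he : Function.Injective e) :
    MeasurePreserving (fun (z : R → X) (j : J) => z (e j)) (Measure.pi (fun _ : R => μ))
      (Measure.pi (fun _ : J => μ)) := by
  classical
  have hm : Measurable (fun (z : R → X) (j : J) => z (e j)) := by fun_prop
  refine ⟨hm, (Measure.pi_eq fun s hs => ?_).symm⟩
  rw [Measure.map_apply hm (MeasurableSet.univ_pi hs)]
  have h1 : (fun (z : R → X) (j : J) => z (e j)) ⁻¹' (Set.univ.pi s) =
      Set.univ.pi (fun i => ⋂ j, ⋂ _ : e j = i, s j) := by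
    ext z
    simp only [Set.mem_preimage, Set.mem_pi, Set.mem_univ, forall_true_left, Set.mem_iInter]
    constructor
    · intro h i j hj
      rw [← hj]; exact h j
    · intro h j
      exact h (e j) j rfl
  rw [h1, Measure.pi_pi]
  have h2 : ∀ i, i ∉ Finset.univ.image e → μ (⋂ j, ⋂ _ : e j = i, s j) = 1 := by
    intro i hi
    have : (⋂ j, ⋂ _ : e j = i, s j) = Set.univ := by
      ext x
      simp only [Set.mem_iInter, Set.mem_univ, iff_true]
      intro j hj
      exact absurd (Finset.mem_image.mpr ⟨j, Finset.mem_univ j, hj⟩) hi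
    rw [this, measure_univ]
  rw [← Finset.prod_subset (Finset.subset_univ (Finset.univ.image e)) (fun i _ hi => h2 i hi),
    Finset.prod_image (fun a _ b _ h => he h)]
  apply Finset.prod_congr rfl
  intro j _
  congr 1
  ext x
  simp only [Set.mem_iInter]
  constructor
  · intro h; exact h j rfl
  · intro h j' hj'
    rw [he hj']; exact h

end

section

variable (gc : Measure ℂ) (hgc : gc = (volume : Measure ℂ).withDensity dens)

include hgc

/-- Small balls. -/
theorem ball (m : ℕ) (hm : 1 ≤ m) (r : ℝ) (hr : 0 ≤ r) :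
    (Measure.pi (fun _ : Fin m => gc)) {z | ∑ i, Complex.normSq (z i) < r} ≤
      ENNReal.ofReal (r ^ m / m.factorial) := by
  have : Nonempty (Fin m) := ⟨⟨0, hm⟩⟩
  have hset : {z : Fin m → ℂ | ∑ i, Complex.normSq (z i) < r} =
      {z : Fin m → ℂ | (∑ i, ‖z i‖ ^ (2 : ℝ)) ^ (1 / (2 : ℝ)) < Real.sqrt r} := by
    ext z
    simp only [Set.mem_ofPred_eq]
    rw [← Real.sqrt_eq_rpow]
    have : ∑ i, ‖z i‖ ^ (2 : ℝ) = ∑ i, Complex.normSq (z i) := by
      apply Finset.sum_congr rfl
      intro i _
      rw [Complex.normSq_eq_norm_sq, Real.rpow_two]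
    rw [this]
    rw [Real.sqrt_lt_sqrt_iff (Finset.sum_nonneg fun i _ => Complex.normSq_nonneg _)]
  have hopen : MeasurableSet {z : Fin m → ℂ | ∑ i, Complex.normSq (z i) < r} := by
    apply IsOpen.measurableSet
    apply isOpen_lt _ continuous_const
    apply continuous_finsetSum
    intro i _
    exact Complex.continuous_normSq.comp (continuous_apply i)
  rw [pi_gc gc hgc, withDensity_apply _ hopen]
  have hb : ∀ z : Fin m → ℂ, densP z ≤ ENNReal.ofReal (1 / Real.pi ^ m) := by
    intro z
    rw [densP_eq, Fintype.card_fin]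
    apply ENNReal.ofReal_le_ofReal
    apply div_le_div_of_nonneg_right _ (by positivity)
    rw [Real.exp_le_one_iff]
    have := Finset.sum_nonneg (s := univ) (fun (i : Fin m) _ => Complex.normSq_nonneg (z i))
    linarith
  calc ∫⁻ z in {z : Fin m → ℂ | ∑ i, Complex.normSq (z i) < r}, densP z
      ≤ ∫⁻ z in {z : Fin m → ℂ | ∑ i, Complex.normSq (z i) < r}, ENNReal.ofReal (1 / Real.pi ^ m) :=
        lintegral_mono (fun z => hb z)
    _ = ENNReal.ofReal (1 / Real.pi ^ m) *
          volume {z : Fin m → ℂ | ∑ i, Complex.normSq (z i) < r} := by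
        rw [lintegral_const, Measure.restrict_apply_univ]
    _ = ENNReal.ofReal (r ^ m / m.factorial) := by
        rw [hset, Complex.volume_sum_rpow_lt (Fin m) (by norm_num) (Real.sqrt r), Fintype.card_fin]
        rw [← ENNReal.ofReal_pow (Real.sqrt_nonneg r), ← ENNReal.ofReal_mul (by positivity),
          ← ENNReal.ofReal_mul (by positivity)]
        congr 1
        have h1 : Real.Gamma (2 / 2 + 1) = 1 := by norm_num
        have h2 : Real.Gamma (2 * (m : ℝ) / 2 + 1) = m.factorial := by
          have : 2 * (m : ℝ) / 2 + 1 = (m : ℝ) + 1 := by ring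
          rw [this, Real.Gamma_nat_eq_factorial]
        rw [h1, h2, pow_mul, Real.sq_sqrt hr, mul_one]
        field_simp

/-- A Gaussian vector is rarely close to the span of few fixed vectors. -/
theorem fixed {R : Type*} [Fintype R] (m : ℕ) (hm : 1 ≤ m) (n' : ℕ) (hR : n' + m ≤ Fintype.card R)
    (Y : Fin n' → R → ℂ) (r : ℝ) (hr : 0 ≤ r) :
    (Measure.pi (fun _ : R => gc))
      {z | ∃ w : Fin n' → ℂ, ∑ s, Complex.normSq (z s + ∑ j, w j * Y j s) < r} ≤
      ENNReal.ofReal (r ^ m / m.factorial) := by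
  classical
  have := isProb gc hgc
  let E := EuclideanSpace ℂ R
  let Y' : Fin n' → E := fun j => WithLp.toLp 2 (Y j)
  let V : Submodule ℂ E := Submodule.span ℂ (Set.range Y')
  have hV : Module.finrank ℂ V ≤ n' := by
    have := finrank_range_le_card (R := ℂ) Y'
    rw [Fintype.card_fin] at this
    exact this
  have hVo : m ≤ Module.finrank ℂ Vᗮ := by
    have h := Submodule.finrank_add_finrank_orthogonal V
    rw [finrank_euclideanSpace] at h
    omega
  let b : Fin m → E := fun i => ((stdOrthonormalBasis ℂ Vᗮ) (Fin.castLE hVo i) : E)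
  have hb : Orthonormal ℂ b := by
    have h1 := (stdOrthonormalBasis ℂ Vᗮ).orthonormal
    have h2 := h1.comp (Fin.castLE hVo) (Fin.castLE_injective hVo)
    have h3 := h2.comp_linearIsometry Vᗮ.subtypeₗᵢ
    exact h3
  have hbV : ∀ i, b i ∈ Vᗮ := fun i => Submodule.coe_mem _
  obtain ⟨e⟩ : Nonempty (Fin m ↪ R) :=
    Function.Embedding.nonempty_of_card_le (by rw [Fintype.card_fin]; omega)
  let v : R → E := Function.extend e b 0
  have hv : Orthonormal ℂ ((Set.range e).domRestrict v) := by
    have h1 : (Set.range e).domRestrict v = b ∘ (Equiv.ofInjective e e.injective).symm := by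
      funext x
      obtain ⟨i, hi⟩ := x.2
      have hx : x = Equiv.ofInjective e e.injective i := Subtype.ext hi.symm
      have h2 : (Set.range e).domRestrict v (Equiv.ofInjective e e.injective i) = v (e i) := rfl
      rw [hx, h2, Function.comp_apply, Equiv.symm_apply_apply]
      exact e.injective.extend_apply b 0 i
    rw [h1]
    exact hb.comp _ (Equiv.injective _)
  obtain ⟨B, hB⟩ := hv.exists_orthonormalBasis_extension_of_card_eq
    (by rw [finrank_euclideanSpace])
  let UC : (R → ℂ) →ₗ[ℂ] (R → ℂ) :=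
    (WithLp.linearEquiv 2 ℂ (R → ℂ)).toLinearMap ∘ₗ B.repr.toLinearEquiv.toLinearMap ∘ₗ
      (WithLp.linearEquiv 2 ℂ (R → ℂ)).symm.toLinearMap
  let U : (R → ℂ) →ₗ[ℝ] (R → ℂ) := UC.restrictScalars ℝ
  have hUa : ∀ z s, U z s = inner ℂ (B s) (WithLp.toLp 2 z) := by
    intro z s
    have := B.repr_apply_apply (WithLp.toLp 2 z) s
    rw [← this]
    rfl
  have hU : ∀ z, ∑ i, Complex.normSq (U z i) = ∑ i, Complex.normSq (z i) := by
    intro z
    have h1 : ‖B.repr (WithLp.toLp 2 z)‖ = ‖(WithLp.toLp 2 z : E)‖ := B.repr.norm_map _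
    have h2 := EuclideanSpace.norm_sq_eq (B.repr (WithLp.toLp 2 z))
    have h3 := EuclideanSpace.norm_sq_eq (WithLp.toLp 2 z : E)
    rw [h1, h3] at h2
    have h4 : ∀ i, Complex.normSq (U z i) = ‖(B.repr (WithLp.toLp 2 z)) i‖ ^ 2 := by
      intro i
      rw [Complex.normSq_eq_norm_sq]; rfl
    have h5 : ∀ i, Complex.normSq (z i) = ‖(WithLp.toLp 2 z : E) i‖ ^ 2 := by
      intro i
      rw [Complex.normSq_eq_norm_sq]
    simp_rw [h4, h5]
    exact h2.symm
  have hUY : ∀ j i, U (Y j) (e i) = 0 := by
    intro j i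
    rw [hUa, hB (e i) ⟨i, rfl⟩]
    simp only [v]
    rw [e.injective.extend_apply]
    have h1 : Y' j ∈ V := Submodule.subset_span ⟨j, rfl⟩
    exact Submodule.inner_left_of_mem_orthogonal h1 (hbV i)
  have hsub : {z : R → ℂ | ∃ w : Fin n' → ℂ, ∑ s, Complex.normSq (z s + ∑ j, w j * Y j s) < r} ⊆
      U ⁻¹' ((fun (z : R → ℂ) (j : Fin m) => z (e j)) ⁻¹'
        {z | ∑ i, Complex.normSq (z i) < r}) := by
    rintro z ⟨w, hw⟩
    simp only [Set.mem_preimage, Set.mem_ofPred_eq]
    have hlin : ∀ i, U z (e i) = U (fun s => z s + ∑ j, w j * Y j s) (e i) := by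
      intro i
      have h1 : (fun s => z s + ∑ j, w j * Y j s) = z + ∑ j, w j • Y j := by
        funext s
        simp
      have h2 : U (fun s => z s + ∑ j, w j * Y j s) = U z + ∑ j, w j • U (Y j) := by
        rw [h1]
        change UC (z + ∑ j, w j • Y j) = UC z + ∑ j, w j • UC (Y j)
        rw [map_add, _root_.map_sum]
        simp_rw [map_smul]
      rw [h2]
      simp [hUY]
    simp_rw [hlin]
    refine lt_of_le_of_lt ?_ hw
    rw [← hU (fun s => z s + ∑ j, w j * Y j s)]
    rw [← Finset.sum_map univ e (fun i => Complex.normSq (U (fun s => z s + ∑ j, w j * Y j s) i))]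
    exact Finset.sum_le_sum_of_subset_of_nonneg (Finset.subset_univ _)
      (fun i _ _ => Complex.normSq_nonneg _)
  have hopen : MeasurableSet {z : Fin m → ℂ | ∑ i, Complex.normSq (z i) < r} := by
    apply IsOpen.measurableSet
    apply isOpen_lt _ continuous_const
    apply continuous_finsetSum
    intro i _
    exact Complex.continuous_normSq.comp (continuous_apply i)
  have hM := marg (R := R) gc e e.injective
  calc _ ≤ (Measure.pi (fun _ : R => gc)) (U ⁻¹' ((fun (z : R → ℂ) (j : Fin m) => z (e j)) ⁻¹'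
        {z | ∑ i, Complex.normSq (z i) < r})) := measure_mono hsub
    _ = (Measure.pi (fun _ : R => gc)) ((fun (z : R → ℂ) (j : Fin m) => z (e j)) ⁻¹'
        {z | ∑ i, Complex.normSq (z i) < r}) :=
        (pres gc hgc U hU).measure_preimage (hM.measurable hopen).nullMeasurableSet
    _ = (Measure.pi (fun _ : Fin m => gc)) {z | ∑ i, Complex.normSq (z i) < r} :=
        hM.measure_preimage hopen.nullMeasurableSet
    _ ≤ _ := ball gc hgc m hm r hr

omit hgc in
theorem isOpen_ev {R J : Type*} [Fintype R] [Fintype J] (P : (J → ℂ) → Prop) (r : (J → ℂ) → ℝ) :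
    IsOpen {Z : R → J → ℂ | ∃ w : J → ℂ, P w ∧ ∑ s, Complex.normSq (∑ i, Z s i * w i) < r w} := by
  have : {Z : R → J → ℂ | ∃ w : J → ℂ, P w ∧ ∑ s, Complex.normSq (∑ i, Z s i * w i) < r w} =
      ⋃ w : J → ℂ, ⋃ _ : P w, {Z | ∑ s, Complex.normSq (∑ i, Z s i * w i) < r w} := by
    ext Z
    simp
  rw [this]
  apply isOpen_iUnion
  intro w
  apply isOpen_iUnion
  intro _
  apply isOpen_lt _ continuous_const
  apply continuous_finsetSum
  intro s _
  apply Complex.continuous_normSq.comp
  apply continuous_finsetSum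
  intro i _
  fun_prop

/-- The first column of a Gaussian matrix is rarely close to the span of the others. -/
theorem col {R : Type*} [Fintype R] (n' m : ℕ) (hm : 1 ≤ m) (hR : n' + m ≤ Fintype.card R)
    (r : ℝ) (hr : 0 ≤ r) :
    (Measure.pi (fun _ : R => Measure.pi (fun _ : Fin (n' + 1) => gc)))
      {Z | ∃ w : Fin (n' + 1) → ℂ, w 0 = 1 ∧ ∑ s, Complex.normSq (∑ i, Z s i * w i) < r} ≤
      ENNReal.ofReal (r ^ m / m.factorial) := by
  have := isProb gc hgc
  have hE := (isOpen_ev (R := R) (J := Fin (n' + 1)) (fun w => w 0 = 1) (fun _ => r)).measurableSet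
  rw [swap gc _ hE]
  have hp := measurePreserving_piFinSuccAbove (fun _ : Fin (n' + 1) => Measure.pi (fun _ : R => gc)) 0
  set F : Set ((R → ℂ) × (Fin n' → R → ℂ)) :=
    {q | ∃ w : Fin n' → ℂ, ∑ s, Complex.normSq (q.1 s + ∑ j, w j * q.2 j s) < r} with hF
  have hFo : IsOpen F := by
    have : F = ⋃ w : Fin n' → ℂ,
        {q : (R → ℂ) × (Fin n' → R → ℂ) | ∑ s, Complex.normSq (q.1 s + ∑ j, w j * q.2 j s) < r} := by
      ext q
      simp [hF]
    rw [this]
    apply isOpen_iUnion
    intro w
    apply isOpen_lt _ continuous_const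
    apply continuous_finsetSum
    intro s _
    apply Complex.continuous_normSq.comp
    apply Continuous.add
    · fun_prop
    · apply continuous_finsetSum
      intro i _
      fun_prop
  have hpre : {Z : Fin (n' + 1) → R → ℂ | (fun i j => Z j i) ∈
      {Z : R → Fin (n' + 1) → ℂ | ∃ w : Fin (n' + 1) → ℂ, w 0 = 1 ∧
        ∑ s, Complex.normSq (∑ i, Z s i * w i) < r}} =
      (MeasurableEquiv.piFinSuccAbove (fun _ : Fin (n' + 1) => R → ℂ) 0) ⁻¹' F := by
    ext Z
    simp only [Set.mem_ofPred_eq, Set.mem_preimage, hF]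
    constructor
    · rintro ⟨w, hw0, hw⟩
      refine ⟨fun j => w j.succ, lt_of_le_of_lt (le_of_eq ?_) hw⟩
      apply Finset.sum_congr rfl
      intro s _
      congr 1
      rw [Fin.sum_univ_succ, hw0, mul_one]
      congr 1
      apply Finset.sum_congr rfl
      intro j _
      rw [mul_comm]
      rfl
    · rintro ⟨w, hw⟩
      refine ⟨Fin.cons 1 w, rfl, lt_of_le_of_lt (le_of_eq ?_) hw⟩
      apply Finset.sum_congr rfl
      intro s _
      congr 1
      rw [Fin.sum_univ_succ, Fin.cons_zero, mul_one]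
      congr 1
      apply Finset.sum_congr rfl
      intro j _
      rw [mul_comm, Fin.cons_succ]
      rfl
  rw [hpre, hp.measure_preimage hFo.measurableSet.nullMeasurableSet,
    Measure.prod_apply_symm hFo.measurableSet]
  calc _ ≤ ∫⁻ _ : Fin n' → R → ℂ, ENNReal.ofReal (r ^ m / m.factorial)
          ∂(Measure.pi (fun _ : Fin n' => Measure.pi (fun _ : R => gc))) := by
        apply lintegral_mono
        intro Y
        exact fixed gc hgc m hm n' hR Y r hr
    _ = _ := by
        rw [lintegral_const, measure_univ, mul_one]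

end

end Pool.Agent.H78.KB
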