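import Mathlib

/-!
# Invariance of products of complex Gaussian measures under unitary maps

* `lintegral_pi_prod` : the integral of a product of functions of one variable;
* `pi_withDensity` : a product of measures with density has the product as density;
* `map_eq_of_density` : a linear map which preserves a density of total mass one preserves the measure.
-/

set_option autoImplicit false

open MeasureTheory MeasureTheory.Measure Finset
open scoped ENNReal

namespace Pool.Agent.H78.KB

theorem lintegral_pi_prod {ι : Type*} [Fintype ι] {X : Type*} [MeasurableSpace X] [Nonempty X]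
    (μ : ι → Measure X) [∀ i, SigmaFinite (μ i)] (g : ι → X → ℝ≥0∞) (hg : ∀ i, Measurable (g i)) :
    ∫⁻ z, ∏ i, g i (z i) ∂(Measure.pi μ) = ∏ i, ∫⁻ x, g i x ∂(μ i) := by
  classical
  have key : ∀ s : Finset ι, (∫⋯∫⁻_s, (fun z : ι → X => ∏ i ∈ s, g i (z i)) ∂μ) =
      fun _ => ∏ i ∈ s, ∫⁻ x, g i x ∂(μ i) := by
    intro s
    induction s using Finset.induction_on with
    | empty => simp
    | insert i s hi ih =>
      have hm : Measurable (fun z : ι → X => ∏ j ∈ insert i s, g j (z j)) := by
        apply Finset.measurable_prod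
        intro j _
        exact (hg j).comp (measurable_pi_apply j)
      rw [lmarginal_insert' _ hm hi]
      have h1 : (fun x : ι → X => ∫⁻ xi, ∏ j ∈ insert i s, g j (Function.update x i xi j) ∂(μ i)) =
          fun x => (∏ j ∈ s, g j (x j)) * ∫⁻ x, g i x ∂(μ i) := by
        funext x
        have h2 : ∀ xi, ∏ j ∈ insert i s, g j (Function.update x i xi j) =
            (∏ j ∈ s, g j (x j)) * g i xi := by
          intro xi
          rw [Finset.prod_insert hi, Function.update_self, mul_comm]
          congr 1
          apply Finset.prod_congr rfl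
          intro j hj
          have hji : j ≠ i := fun h => hi (by rw [← h]; exact hj)
          rw [Function.update_of_ne hji]
        simp_rw [h2]
        rw [lintegral_const_mul _ (hg i)]
      rw [h1]
      funext x
      have h3 : Measurable (fun z : ι → X => ∏ j ∈ s, g j (z j)) := by
        apply Finset.measurable_prod
        intro j _
        exact (hg j).comp (measurable_pi_apply j)
      have h4 : (∫⋯∫⁻_s, (fun x : ι → X => (∏ j ∈ s, g j (x j)) * ∫⁻ x, g i x ∂(μ i)) ∂μ) x =
          (∫⋯∫⁻_s, (fun x : ι → X => (∏ j ∈ s, g j (x j))) ∂μ) x * ∫⁻ x, g i x ∂(μ i) := by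
        unfold lmarginal
        rw [lintegral_mul_const]
        exact h3.comp measurable_updateFinset
      rw [h4, ih, Finset.prod_insert hi, mul_comm]
  have h := lintegral_eq_lmarginal_univ (μ := μ) (f := fun z : ι → X => ∏ i, g i (z i))
    (fun _ => Classical.arbitrary X)
  rw [h, key univ]

theorem pi_withDensity {ι : Type*} [Fintype ι] {X : Type*} [MeasurableSpace X] [Nonempty X]
    (μ : Measure X) [SigmaFinite μ] (f : X → ℝ≥0∞) (hf : Measurable f)
    [SigmaFinite (μ.withDensity f)] :
    Measure.pi (fun _ : ι => μ.withDensity f) =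
      (Measure.pi (fun _ : ι => μ)).withDensity (fun z => ∏ i, f (z i)) := by
  classical
  symm
  symm
  refine Measure.pi_eq (fun s hs => ?_)
  rw [withDensity_apply _ (MeasurableSet.univ_pi hs), ← lintegral_indicator (MeasurableSet.univ_pi hs)]
  have h1 : ∀ z : ι → X, (Set.univ.pi s).indicator (fun z => ∏ i, f (z i)) z =
      ∏ i, (s i).indicator f (z i) := by
    intro z
    by_cases hz : z ∈ Set.univ.pi s
    · rw [Set.indicator_of_mem hz]
      apply Finset.prod_congr rfl
      intro i _
      rw [Set.indicator_of_mem (hz i (Set.mem_univ i))]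
    · rw [Set.indicator_of_notMem hz]
      have : ∃ i, z i ∉ s i := by
        by_contra hcon
        push Not at hcon
        exact hz (fun i _ => hcon i)
      obtain ⟨i, hi⟩ := this
      symm
      apply Finset.prod_eq_zero (mem_univ i)
      rw [Set.indicator_of_notMem hi]
  simp_rw [h1]
  rw [lintegral_pi_prod (fun _ => μ) (fun i => (s i).indicator f) (fun i => hf.indicator (hs i))]
  apply Finset.prod_congr rfl
  intro i _
  rw [withDensity_apply _ (hs i), lintegral_indicator (hs i)]

/-- A linear map which preserves a probability density preserves the measure. -/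
theorem map_eq_of_density {E : Type*} [NormedAddCommGroup E] [NormedSpace ℝ E] [MeasurableSpace E]
    [BorelSpace E] [FiniteDimensional ℝ E] (μ : Measure E) [μ.IsAddHaarMeasure] (F : E → ℝ≥0∞)
    (hF : Measurable F) (h1 : ∫⁻ x, F x ∂μ = 1) (U : E →ₗ[ℝ] E) (hU : Function.Injective U)
    (hFU : ∀ x, F (U x) = F x) :
    MeasurePreserving U (μ.withDensity F) (μ.withDensity F) := by
  have hUm : Measurable U := U.continuous_of_finiteDimensional.measurable
  have hdet : LinearMap.det U ≠ 0 := by
    intro h0
    have := LinearMap.bot_lt_ker_of_det_eq_zero h0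
    rw [LinearMap.ker_eq_bot.mpr hU] at this
    exact lt_irrefl _ this
  have hmap := Measure.map_linearMap_addHaar_eq_smul_addHaar μ hdet
  set c : ℝ≥0∞ := ENNReal.ofReal |(LinearMap.det U)⁻¹| with hc
  have hmass : ∫⁻ x, F (U x) ∂μ = c * ∫⁻ x, F x ∂μ := by
    rw [← lintegral_map hF hUm, hmap, lintegral_smul_measure, smul_eq_mul]
  have hc1 : c = 1 := by
    have : ∫⁻ x, F (U x) ∂μ = 1 := by simp_rw [hFU]; exact h1
    rw [this, h1, mul_one] at hmass
    exact hmass.symm
  refine ⟨hUm, ?_⟩
  ext s hs
  rw [Measure.map_apply hUm hs, withDensity_apply _ (hUm hs), withDensity_apply _ hs,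
    ← lintegral_indicator (hUm hs), ← lintegral_indicator hs]
  have h2 : ∀ x, (U ⁻¹' s).indicator F x = s.indicator F (U x) := by
    intro x
    by_cases hx : U x ∈ s
    · rw [Set.indicator_of_mem (by exact hx), Set.indicator_of_mem hx, hFU]
    · rw [Set.indicator_of_notMem (by exact hx), Set.indicator_of_notMem hx]
  simp_rw [h2]
  rw [← lintegral_map (hF.indicator hs) hUm, hmap, hc1, one_smul]

/-- Density of the standard complex Gaussian measure on `ℂ`. -/
noncomputable def dens (z : ℂ) : ℝ≥0∞ := ENNReal.ofReal (Real.exp (-Complex.normSq z) / Real.pi)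

theorem dens_meas : Measurable dens := by
  unfold dens
  have : Measurable (fun z : ℂ => Complex.normSq z) := Complex.continuous_normSq.measurable
  fun_prop

theorem lintegral_exp {b : ℝ} (hb : 0 < b) :
    ∫⁻ z : ℂ, ENNReal.ofReal (Real.exp (-b * Complex.normSq z) / Real.pi) =
      ENNReal.ofReal (1 / b) := by
  have h := @GaussianFourier.integral_rexp_neg_mul_sq_norm ℂ _ _ _ _ _ b hb
  have h0 : (Real.pi / b) ^ ((Module.finrank ℝ ℂ : ℝ) / 2) = Real.pi / b := by
    rw [Complex.finrank_real_complex]; norm_num
  rw [h0] at h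
  have h1 : ∫ z : ℂ, Real.exp (-b * Complex.normSq z) / Real.pi = 1 / b := by
    have : ∀ z : ℂ, Real.exp (-b * Complex.normSq z) / Real.pi =
        Real.exp (-b * ‖z‖ ^ 2) / Real.pi := by
      intro z; rw [Complex.normSq_eq_norm_sq]
    simp_rw [this]
    rw [integral_div, h]
    field_simp
  rw [← ofReal_integral_eq_lintegral_ofReal, h1]
  · by_contra hcon
    rw [integral_undef hcon] at h1
    have : 0 < 1 / b := by positivity
    rw [← h1] at this
    exact lt_irrefl _ this
  · exact Filter.Eventually.of_forall (fun z => by positivity)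

theorem lintegral_dens : ∫⁻ z : ℂ, dens z = 1 := by
  have h := lintegral_exp (b := 1) one_pos
  simp only [div_one, ENNReal.ofReal_one, neg_mul, one_mul] at h
  exact h

/-- The product of the densities on `ι → ℂ`. -/
noncomputable def densP {ι : Type*} [Fintype ι] (z : ι → ℂ) : ℝ≥0∞ := ∏ i, dens (z i)

theorem densP_eq {ι : Type*} [Fintype ι] (z : ι → ℂ) :
    densP z = ENNReal.ofReal (Real.exp (-∑ i, Complex.normSq (z i)) / Real.pi ^ Fintype.card ι) := by
  unfold densP dens
  rw [← ENNReal.ofReal_prod_of_nonneg (fun i _ => by positivity), Finset.prod_div_distrib,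
    ← Real.exp_sum, Finset.sum_neg_distrib, Finset.prod_const, Finset.card_univ]

theorem densP_meas {ι : Type*} [Fintype ι] : Measurable (densP (ι := ι)) := by
  unfold densP
  apply Finset.measurable_prod
  intro i _
  exact dens_meas.comp (measurable_pi_apply i)

theorem lintegral_densP {ι : Type*} [Fintype ι] : ∫⁻ z : ι → ℂ, densP z = 1 := by
  have h := lintegral_pi_prod (fun _ : ι => (volume : Measure ℂ)) (fun _ => dens)
    (fun _ => dens_meas)
  simp only [lintegral_dens, Finset.prod_const_one] at h
  exact h

section

variable (gc : Measure ℂ) (hgc : gc = (volume : Measure ℂ).withDensity dens)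

include hgc

theorem isProb : IsProbabilityMeasure gc := by
  subst hgc
  refine ⟨?_⟩
  rw [withDensity_apply _ MeasurableSet.univ, Measure.restrict_univ, lintegral_dens]

theorem pi_gc {ι : Type*} [Fintype ι] :
    Measure.pi (fun _ : ι => gc) = (volume : Measure (ι → ℂ)).withDensity densP := by
  have := isProb gc hgc
  subst hgc
  exact pi_withDensity volume dens dens_meas

/-- Unitary invariance. -/
theorem pres {ι : Type*} [Fintype ι] (U : (ι → ℂ) →ₗ[ℝ] (ι → ℂ))
    (hU : ∀ z, ∑ i, Complex.normSq (U z i) = ∑ i, Complex.normSq (z i)) :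
    MeasurePreserving U (Measure.pi (fun _ : ι => gc)) (Measure.pi (fun _ : ι => gc)) := by
  rw [pi_gc gc hgc]
  refine map_eq_of_density volume densP densP_meas lintegral_densP U ?_ ?_
  · rw [← LinearMap.ker_eq_bot, LinearMap.ker_eq_bot']
    intro z hz
    have h := hU z
    rw [hz] at h
    simp only [Pi.zero_apply, map_zero, Finset.sum_const_zero] at h
    have h2 := (Finset.sum_eq_zero_iff_of_nonneg (fun i _ => Complex.normSq_nonneg (z i))).mp h.symm
    funext i
    exact Complex.normSq_eq_zero.mp (h2 i (mem_univ i))
  · intro z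
    rw [densP_eq, densP_eq, hU]

end

end Pool.Agent.H78.KB
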