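import Pool.Agent.H78.KB.Col

/-!
# One complex Gaussian variable

`gc_tail` : `P(|z|² > c) ≥ exp(-c)`.
`exp_moment` : `E exp(θ |g|²) = (1-θ)^{-n}`.
-/

set_option autoImplicit false

open MeasureTheory MeasureTheory.Measure Finset Filter Topology
open scoped ENNReal

namespace Pool.Agent.H78.KB

theorem radial (a : ℝ) (ha : 0 ≤ a) :
    ∫⁻ r in Set.Ioi a, ENNReal.ofReal (2 * r * Real.exp (-r ^ 2)) = ENNReal.ofReal (Real.exp (-a ^ 2)) := by
  have hd : ∀ x ∈ Set.Ici a, HasDerivAt (fun r : ℝ => -Real.exp (-r ^ 2)) (2 * x * Real.exp (-x ^ 2)) x := by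
    intro x _
    have h1 : HasDerivAt (fun r : ℝ => -r ^ 2) (-(2 * x)) x := by
      have h0 : HasDerivAt (fun r : ℝ => r ^ 2) (2 * x) x := by
        have := hasDerivAt_pow 2 x
        simpa using this
      exact h0.neg
    have h2 := h1.exp.neg
    have h3 : -(Real.exp (-x ^ 2) * -(2 * x)) = 2 * x * Real.exp (-x ^ 2) := by ring
    rw [h3] at h2
    exact h2
  have hnn : ∀ x ∈ Set.Ioi a, 0 ≤ 2 * x * Real.exp (-x ^ 2) := by
    intro x hx
    have : 0 < x := lt_of_le_of_lt ha hx
    positivity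
  have ht : Tendsto (fun r : ℝ => -Real.exp (-r ^ 2)) atTop (𝓝 0) := by
    have h1 : Tendsto (fun r : ℝ => -r ^ 2) atTop atBot :=
      tendsto_neg_atTop_atBot.comp (tendsto_pow_atTop two_ne_zero)
    have h2 := (Real.tendsto_exp_atBot.comp h1).neg
    rw [neg_zero] at h2
    exact h2
  have hint := integrableOn_Ioi_deriv_of_nonneg' hd hnn ht
  have hval := integral_Ioi_of_hasDerivAt_of_tendsto' hd hint ht
  rw [← ofReal_integral_eq_lintegral_ofReal hint, hval]
  · congr 1; ring
  · exact (ae_restrict_iff' measurableSet_Ioi).mpr (Eventually.of_forall hnn)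

section

variable (gc : Measure ℂ) (hgc : gc = (volume : Measure ℂ).withDensity dens)

include hgc

theorem gc_tail (c : ℝ) (hc : 0 ≤ c) :
    ENNReal.ofReal (Real.exp (-c)) ≤ gc {z | c < Complex.normSq z} := by
  have hm : MeasurableSet {z : ℂ | c < Complex.normSq z} :=
    (isOpen_lt continuous_const Complex.continuous_normSq).measurableSet
  rw [hgc, withDensity_apply _ hm, ← lintegral_indicator hm,
    ← Complex.lintegral_comp_polarCoord_symm]
  have hns : ∀ p : ℝ × ℝ, Complex.normSq (Complex.polarCoord.symm p) = p.1 ^ 2 := by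
    intro p
    rw [Complex.normSq_eq_norm_sq, Complex.norm_polarCoord_symm, sq_abs]
  set G : ℝ → ℝ≥0∞ := fun r => ENNReal.ofReal r *
    (if c < r ^ 2 then ENNReal.ofReal (Real.exp (-r ^ 2) / Real.pi) else 0) with hG
  have hGm : Measurable G := by
    rw [hG]
    apply Measurable.mul (by fun_prop)
    apply Measurable.ite
    · exact (isOpen_lt continuous_const (by fun_prop : Continuous fun r : ℝ => r ^ 2)).measurableSet
    · fun_prop
    · exact measurable_const
  have h1 : ∀ p : ℝ × ℝ, ENNReal.ofReal p.1 •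
      ({z : ℂ | c < Complex.normSq z}.indicator dens (Complex.polarCoord.symm p)) = G p.1 := by
    intro p
    rw [smul_eq_mul, hG]
    congr 1
    by_cases h : c < p.1 ^ 2
    · rw [Set.indicator_of_mem (show Complex.polarCoord.symm p ∈ {z : ℂ | c < Complex.normSq z} by
        rw [Set.mem_ofPred_eq, hns]; exact h), if_pos h]
      unfold dens
      rw [hns]
    · rw [Set.indicator_of_notMem (show Complex.polarCoord.symm p ∉ {z : ℂ | c < Complex.normSq z} by
        rw [Set.mem_ofPred_eq, hns]; exact h), if_neg h]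
  simp_rw [h1]
  have h2 : (polarCoord.target : Set (ℝ × ℝ)) = Set.Ioi (0 : ℝ) ×ˢ Set.Ioo (-Real.pi) Real.pi := rfl
  rw [h2, Measure.volume_eq_prod, ← Measure.prod_restrict, lintegral_prod (fun p : ℝ × ℝ => G p.1)
    (hGm.comp measurable_fst).aemeasurable]
  have h3 : ∀ r : ℝ, ∫⁻ _ : ℝ, G r ∂(volume.restrict (Set.Ioo (-Real.pi) Real.pi)) =
      ENNReal.ofReal (2 * Real.pi) * G r := by
    intro r
    rw [lintegral_const, Measure.restrict_apply_univ, Real.volume_Ioo, mul_comm]
    congr 2
    ring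
  simp_rw [h3]
  have hsq : (Real.sqrt c) ^ 2 = c := Real.sq_sqrt hc
  calc ENNReal.ofReal (Real.exp (-c))
      = ∫⁻ r in Set.Ioi (Real.sqrt c), ENNReal.ofReal (2 * r * Real.exp (-r ^ 2)) := by
        rw [radial _ (Real.sqrt_nonneg c), hsq]
    _ = ∫⁻ r in Set.Ioi (Real.sqrt c), ENNReal.ofReal (2 * Real.pi) * G r := by
        apply setLIntegral_congr_fun measurableSet_Ioi
        intro r hr
        have hr0 : 0 < r := lt_of_le_of_lt (Real.sqrt_nonneg c) hr
        have hcr : c < r ^ 2 := by
          rw [← hsq]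
          exact pow_lt_pow_left₀ hr (Real.sqrt_nonneg c) two_ne_zero
        simp only [hG]
        rw [if_pos hcr, ← ENNReal.ofReal_mul hr0.le, ← ENNReal.ofReal_mul (by positivity)]
        congr 1
        field_simp
    _ ≤ ∫⁻ r in Set.Ioi 0, ENNReal.ofReal (2 * Real.pi) * G r :=
        lintegral_mono_set (Set.Ioi_subset_Ioi (Real.sqrt_nonneg c))

theorem exp_one (θ : ℝ) (hθ : θ < 1) :
    ∫⁻ z, ENNReal.ofReal (Real.exp (θ * Complex.normSq z)) ∂gc = ENNReal.ofReal (1 / (1 - θ)) := by
  have hns : Measurable (fun z : ℂ => Complex.normSq z) := Complex.continuous_normSq.measurable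
  rw [hgc, lintegral_withDensity_eq_lintegral_mul _ dens_meas (by fun_prop),
    ← lintegral_exp (b := 1 - θ) (by linarith)]
  apply lintegral_congr
  intro z
  rw [Pi.mul_apply]
  unfold dens
  rw [← ENNReal.ofReal_mul (by positivity)]
  congr 1
  rw [div_mul_eq_mul_div, ← Real.exp_add]
  congr 2
  ring

theorem exp_moment (n : ℕ) (θ : ℝ) (hθ : θ < 1) :
    ∫⁻ z, ENNReal.ofReal (Real.exp (θ * ∑ i, Complex.normSq (z i)))
      ∂(Measure.pi (fun _ : Fin n => gc)) = ENNReal.ofReal ((1 / (1 - θ)) ^ n) := by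
  have := isProb gc hgc
  have hns : Measurable (fun z : ℂ => Complex.normSq z) := Complex.continuous_normSq.measurable
  have h := lintegral_pi_prod (fun _ : Fin n => gc)
    (fun _ z => ENNReal.ofReal (Real.exp (θ * Complex.normSq z))) (fun _ => by fun_prop)
  rw [Finset.prod_const, Finset.card_univ, Fintype.card_fin, exp_one gc hgc θ hθ,
    ← ENNReal.ofReal_pow (by have : 0 < 1 - θ := by linarith
                             positivity)] at h
  rw [← h]
  apply lintegral_congr
  intro z
  rw [← ENNReal.ofReal_prod_of_nonneg (fun i _ => (Real.exp_pos _).le), ← Real.exp_sum,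
    Finset.mul_sum]

end

end Pool.Agent.H78.KB
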