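import Pool.Agent.H78.KB.One

/-!
# The least singular value of a Gaussian matrix

`tailGen` : `P(exists v, |v| = 1, |Z v|² < x) ≤ exp(y x) (y θ)^{-m} (1-θ)^{-n}`, `m = rows - n + 1`;
`tail16` : for `3 n ≤ rows + 1` and `x = n/16` it is at most `(1/20)^n`.
-/

set_option autoImplicit false

open MeasureTheory MeasureTheory.Measure Finset
open scoped ENNReal

namespace Pool.Agent.H78.KB

/-- An orthonormal basis with given first vector. -/
theorem exists_basis {n' : ℕ} (u : Fin (n' + 1) → ℂ) (hu : ∑ i, Complex.normSq (u i) = 1) :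
    ∃ B : OrthonormalBasis (Fin (n' + 1)) ℂ (EuclideanSpace ℂ (Fin (n' + 1))),
      B 0 = WithLp.toLp 2 u := by
  have hn : ‖(WithLp.toLp 2 u : EuclideanSpace ℂ (Fin (n' + 1)))‖ = 1 := by
    have h := EuclideanSpace.norm_sq_eq (WithLp.toLp 2 u : EuclideanSpace ℂ (Fin (n' + 1)))
    have h2 : ∑ i, ‖(WithLp.toLp 2 u : EuclideanSpace ℂ (Fin (n' + 1))) i‖ ^ 2 = 1 := by
      rw [← hu]
      apply Finset.sum_congr rfl
      intro i _
      rw [Complex.normSq_eq_norm_sq]
    rw [h2] at h
    have h3 := norm_nonneg (WithLp.toLp 2 u : EuclideanSpace ℂ (Fin (n' + 1)))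
    nlinarith
  let v : Fin (n' + 1) → EuclideanSpace ℂ (Fin (n' + 1)) := fun _ => WithLp.toLp 2 u
  have hv : Orthonormal ℂ (({0} : Set (Fin (n' + 1))).domRestrict v) := by
    refine ⟨fun i => hn, ?_⟩
    intro i j hij
    exact absurd (Subsingleton.elim i j) hij
  obtain ⟨B, hB⟩ := hv.exists_orthonormalBasis_extension_of_card_eq (by rw [finrank_euclideanSpace])
  exact ⟨B, hB 0 rfl⟩

section

variable {n' : ℕ} (B : OrthonormalBasis (Fin (n' + 1)) ℂ (EuclideanSpace ℂ (Fin (n' + 1))))

/-- Coordinates of the row vector `z` in the basis. -/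
noncomputable def tm : (Fin (n' + 1) → ℂ) →ₗ[ℂ] (Fin (n' + 1) → ℂ) :=
  Matrix.mulVecLin (Matrix.of fun j i => B j i)

theorem tm_apply (z : Fin (n' + 1) → ℂ) (j : Fin (n' + 1)) : tm B z j = ∑ i, z i * B j i := by
  simp only [tm, Matrix.mulVecLin_apply, Matrix.mulVec, dotProduct, Matrix.of_apply]
  apply Finset.sum_congr rfl
  intro i _
  ring

theorem tm_norm (z : Fin (n' + 1) → ℂ) :
    ∑ j, Complex.normSq (tm B z j) = ∑ i, Complex.normSq (z i) := by
  set w : EuclideanSpace ℂ (Fin (n' + 1)) := WithLp.toLp 2 (fun i => (starRingEnd ℂ) (z i)) with hw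
  have h1 := B.sum_sq_norm_inner_right w
  have h2 : ∀ j, Complex.normSq (tm B z j) = ‖inner ℂ (B j) w‖ ^ 2 := by
    intro j
    have : inner ℂ (B j) w = (starRingEnd ℂ) (tm B z j) := by
      rw [tm_apply, PiLp.inner_apply, _root_.map_sum]
      apply Finset.sum_congr rfl
      intro i _
      simp [hw, RCLike.inner_apply]
    rw [this, RCLike.norm_conj, Complex.normSq_eq_norm_sq]
  simp_rw [h2]
  rw [h1, EuclideanSpace.norm_sq_eq]
  apply Finset.sum_congr rfl
  intro i _
  rw [Complex.normSq_eq_norm_sq]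
  simp [hw]

theorem tm_pair (z v : Fin (n' + 1) → ℂ) :
    ∑ i, z i * v i = ∑ j, tm B z j * inner ℂ (B j) (WithLp.toLp 2 v) := by
  have h1 : ∀ i, v i = ∑ j, inner ℂ (B j) (WithLp.toLp 2 v) * B j i := by
    intro i
    have h := B.sum_repr' (WithLp.toLp 2 v)
    have h2 := congrArg (fun x : EuclideanSpace ℂ (Fin (n' + 1)) => x i) h
    simp only at h2
    rw [← h2]
    simp
  calc ∑ i, z i * v i = ∑ i, z i * ∑ j, inner ℂ (B j) (WithLp.toLp 2 v) * B j i := by
        apply Finset.sum_congr rfl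
        intro i _
        rw [← h1]
    _ = ∑ i, ∑ j, z i * B j i * inner ℂ (B j) (WithLp.toLp 2 v) := by
        apply Finset.sum_congr rfl
        intro i _
        rw [Finset.mul_sum]
        apply Finset.sum_congr rfl
        intro j _
        ring
    _ = _ := by
        rw [Finset.sum_comm]
        apply Finset.sum_congr rfl
        intro j _
        rw [tm_apply, Finset.sum_mul]

end

section

variable (gc : Measure ℂ) (hgc : gc = (volume : Measure ℂ).withDensity dens)

include hgc

theorem tm_pres {n' : ℕ} (B : OrthonormalBasis (Fin (n' + 1)) ℂ (EuclideanSpace ℂ (Fin (n' + 1)))) :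
    MeasurePreserving (tm B) (Measure.pi (fun _ : Fin (n' + 1) => gc))
      (Measure.pi (fun _ : Fin (n' + 1) => gc)) :=
  pres gc hgc ((tm B).restrictScalars ℝ) (fun z => tm_norm B z)

/-- Step 2. -/
theorem rot {R : Type*} [Fintype R] (n' m : ℕ) (hm : 1 ≤ m) (hR : n' + m ≤ Fintype.card R)
    (y : ℝ) (hy : 0 < y) (g : Fin (n' + 1) → ℂ) :
    (Measure.pi (fun _ : R => Measure.pi (fun _ : Fin (n' + 1) => gc)))
      {Z | ∃ v : Fin (n' + 1) → ℂ, y * ∑ s, Complex.normSq (∑ i, Z s i * v i) <
        Complex.normSq (∑ i, g i * v i)} ≤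
      ENNReal.ofReal (((∑ i, Complex.normSq (g i)) / y) ^ m / m.factorial) := by
  have := isProb gc hgc
  set N : ℝ := ∑ i, Complex.normSq (g i) with hN
  have hN0 : 0 ≤ N := Finset.sum_nonneg fun i _ => Complex.normSq_nonneg _
  rcases hN0.eq_or_lt with h0 | hpos
  · have hg : ∀ i, g i = 0 := by
      intro i
      have := (Finset.sum_eq_zero_iff_of_nonneg (fun i _ => Complex.normSq_nonneg (g i))).mp h0.symm i
        (mem_univ i)
      exact Complex.normSq_eq_zero.mp this
    have hempty : {Z : R → Fin (n' + 1) → ℂ | ∃ v : Fin (n' + 1) → ℂ,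
        y * ∑ s, Complex.normSq (∑ i, Z s i * v i) < Complex.normSq (∑ i, g i * v i)} = ∅ := by
      ext Z
      simp only [Set.mem_ofPred_eq, Set.mem_empty_iff_false, iff_false, not_exists, not_lt]
      intro v
      simp only [hg, zero_mul, Finset.sum_const_zero, map_zero]
      exact mul_nonneg hy.le (Finset.sum_nonneg fun s _ => Complex.normSq_nonneg _)
    rw [hempty, measure_empty]
    exact zero_le
  · set r : ℝ := Real.sqrt N with hr
    have hr0 : 0 < r := Real.sqrt_pos.mpr hpos
    have hrr : r * r = N := Real.mul_self_sqrt hN0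
    obtain ⟨B, hB⟩ := exists_basis (fun i => (starRingEnd ℂ) (g i) / (r : ℂ)) (by
      simp_rw [Complex.normSq_div, Complex.normSq_conj, Complex.normSq_ofReal]
      rw [← Finset.sum_div, ← hN, hrr, div_self hpos.ne'])
    have hc0 : ∀ v : Fin (n' + 1) → ℂ, ∑ i, g i * v i =
        (r : ℂ) * inner ℂ (B 0) (WithLp.toLp 2 v) := by
      intro v
      rw [hB, PiLp.inner_apply, Finset.mul_sum]
      apply Finset.sum_congr rfl
      intro i _
      have hrc : (r : ℂ) ≠ 0 := by exact_mod_cast hr0.ne'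
      simp only [RCLike.inner_apply, map_div₀, Complex.conj_conj, Complex.conj_ofReal]
      field_simp
    have hM : MeasurePreserving (fun (Z : R → Fin (n' + 1) → ℂ) (s : R) => tm B (Z s))
        (Measure.pi (fun _ : R => Measure.pi (fun _ : Fin (n' + 1) => gc)))
        (Measure.pi (fun _ : R => Measure.pi (fun _ : Fin (n' + 1) => gc))) :=
      measurePreserving_pi _ _ (fun _ => tm_pres gc hgc B)
    have hE := (isOpen_ev (R := R) (J := Fin (n' + 1)) (fun w => w 0 = 1)
      (fun _ => N / y)).measurableSet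
    have hsub : {Z : R → Fin (n' + 1) → ℂ | ∃ v : Fin (n' + 1) → ℂ,
        y * ∑ s, Complex.normSq (∑ i, Z s i * v i) < Complex.normSq (∑ i, g i * v i)} ⊆
        (fun (Z : R → Fin (n' + 1) → ℂ) (s : R) => tm B (Z s)) ⁻¹'
          {Z | ∃ w : Fin (n' + 1) → ℂ, w 0 = 1 ∧
            ∑ s, Complex.normSq (∑ i, Z s i * w i) < N / y} := by
      rintro Z ⟨v, hv⟩
      set c : Fin (n' + 1) → ℂ := fun j => inner ℂ (B j) (WithLp.toLp 2 v) with hcdef
      have hv2 : y * ∑ s, Complex.normSq (∑ i, Z s i * v i) < N * Complex.normSq (c 0) := by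
        rw [hc0 v, map_mul, Complex.normSq_ofReal, hrr] at hv
        exact hv
      have hq0 : 0 ≤ y * ∑ s, Complex.normSq (∑ i, Z s i * v i) :=
        mul_nonneg hy.le (Finset.sum_nonneg fun s _ => Complex.normSq_nonneg _)
      have hcpos : 0 < Complex.normSq (c 0) := by
        rcases (Complex.normSq_nonneg (c 0)).eq_or_lt with h | h
        · rw [← h, mul_zero] at hv2
          exact absurd hv2 (not_lt.mpr hq0)
        · exact h
      have hcne : c 0 ≠ 0 := fun h => by rw [h, map_zero] at hcpos; exact lt_irrefl _ hcpos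
      refine ⟨fun j => c j / c 0, div_self hcne, ?_⟩
      have h1 : ∀ s, Complex.normSq (∑ j, tm B (Z s) j * (c j / c 0)) =
          Complex.normSq (∑ i, Z s i * v i) / Complex.normSq (c 0) := by
        intro s
        have : ∑ j, tm B (Z s) j * (c j / c 0) = (∑ j, tm B (Z s) j * c j) / c 0 := by
          rw [Finset.sum_div]
          apply Finset.sum_congr rfl
          intro j _
          rw [mul_div_assoc]
        rw [this, Complex.normSq_div, ← tm_pair B (Z s) v]
      simp_rw [h1]
      rw [← Finset.sum_div, div_lt_div_iff₀ hcpos hy]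
      linarith
    calc _ ≤ (Measure.pi (fun _ : R => Measure.pi (fun _ : Fin (n' + 1) => gc)))
          ((fun (Z : R → Fin (n' + 1) → ℂ) (s : R) => tm B (Z s)) ⁻¹'
          {Z | ∃ w : Fin (n' + 1) → ℂ, w 0 = 1 ∧
            ∑ s, Complex.normSq (∑ i, Z s i * w i) < N / y}) := measure_mono hsub
      _ = _ := hM.measure_preimage hE.nullMeasurableSet
      _ ≤ _ := col gc hgc n' m hm hR (N / y) (by positivity)

/-- Step 1. -/
theorem one_dir (n' : ℕ) (c : ℝ) (hc : 0 ≤ c) (v : Fin (n' + 1) → ℂ)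
    (hv : ∑ i, Complex.normSq (v i) = 1) :
    ENNReal.ofReal (Real.exp (-c)) ≤ (Measure.pi (fun _ : Fin (n' + 1) => gc))
      {g | c < Complex.normSq (∑ i, g i * v i)} := by
  have := isProb gc hgc
  obtain ⟨B, hB⟩ := exists_basis v hv
  have h1 : {g : Fin (n' + 1) → ℂ | c < Complex.normSq (∑ i, g i * v i)} =
      (tm B) ⁻¹' ((Function.eval 0) ⁻¹' {z : ℂ | c < Complex.normSq z}) := by
    ext g
    simp only [Set.mem_ofPred_eq, Set.mem_preimage, Function.eval]
    rw [tm_apply, hB]
  have hm : MeasurableSet {z : ℂ | c < Complex.normSq z} :=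
    (isOpen_lt continuous_const Complex.continuous_normSq).measurableSet
  have he := measurePreserving_eval (fun _ : Fin (n' + 1) => gc) 0
  rw [h1, (tm_pres gc hgc B).measure_preimage (he.measurable hm).nullMeasurableSet,
    he.measure_preimage hm.nullMeasurableSet]
  exact gc_tail gc hgc c hc

theorem tailGen {R : Type*} [Fintype R] (n' m : ℕ) (hm : 1 ≤ m) (hR : n' + m ≤ Fintype.card R)
    (x y θ : ℝ) (hx : 0 < x) (hy : 0 < y) (hθ : 0 < θ) (hθ1 : θ < 1) :
    (Measure.pi (fun _ : R => Measure.pi (fun _ : Fin (n' + 1) => gc)))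
      {Z | ∃ v : Fin (n' + 1) → ℂ, ∑ i, Complex.normSq (v i) = 1 ∧
        ∑ s, Complex.normSq (∑ i, Z s i * v i) < x} ≤
      ENNReal.ofReal (Real.exp (y * x) * (1 / (y * θ)) ^ m * (1 / (1 - θ)) ^ (n' + 1)) := by
  have := isProb gc hgc
  set P := Measure.pi (fun _ : R => Measure.pi (fun _ : Fin (n' + 1) => gc)) with hP
  set G := Measure.pi (fun _ : Fin (n' + 1) => gc) with hG
  set A : Set ((R → Fin (n' + 1) → ℂ) × (Fin (n' + 1) → ℂ)) :=
    {p | ∃ v : Fin (n' + 1) → ℂ, y * ∑ s, Complex.normSq (∑ i, p.1 s i * v i) <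
      Complex.normSq (∑ i, p.2 i * v i)} with hA
  have hAo : IsOpen A := by
    have : A = ⋃ v : Fin (n' + 1) → ℂ, {p : (R → Fin (n' + 1) → ℂ) × (Fin (n' + 1) → ℂ) |
        y * ∑ s, Complex.normSq (∑ i, p.1 s i * v i) < Complex.normSq (∑ i, p.2 i * v i)} := by
      ext p
      simp [hA]
    rw [this]
    apply isOpen_iUnion
    intro v
    apply isOpen_lt
    · apply Continuous.mul continuous_const
      apply continuous_finsetSum
      intro s _
      apply Complex.continuous_normSq.comp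
      apply continuous_finsetSum
      intro i _
      fun_prop
    · apply Complex.continuous_normSq.comp
      apply continuous_finsetSum
      intro i _
      fun_prop
  set BAD : Set (R → Fin (n' + 1) → ℂ) := {Z | ∃ v : Fin (n' + 1) → ℂ,
    ∑ i, Complex.normSq (v i) = 1 ∧ ∑ s, Complex.normSq (∑ i, Z s i * v i) < x} with hBAD
  have hBo : MeasurableSet BAD := (isOpen_ev (R := R) (J := Fin (n' + 1))
    (fun v => ∑ i, Complex.normSq (v i) = 1) (fun _ => x)).measurableSet
  have hlow : ENNReal.ofReal (Real.exp (-(y * x))) * P BAD ≤ (P.prod G) A := by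
    rw [Measure.prod_apply hAo.measurableSet]
    calc ENNReal.ofReal (Real.exp (-(y * x))) * P BAD
        = ∫⁻ _ in BAD, ENNReal.ofReal (Real.exp (-(y * x))) ∂P := by
          rw [lintegral_const, Measure.restrict_apply_univ]
      _ ≤ ∫⁻ Z in BAD, G (Prod.mk Z ⁻¹' A) ∂P := by
          apply setLIntegral_mono' hBo
          rintro Z ⟨v, hv1, hv2⟩
          refine (one_dir gc hgc n' (y * x) (by positivity) v hv1).trans (measure_mono ?_)
          intro g hg
          have hg2 : y * x < Complex.normSq (∑ i, g i * v i) := hg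
          refine ⟨v, ?_⟩
          have : y * ∑ s, Complex.normSq (∑ i, Z s i * v i) < y * x :=
            mul_lt_mul_of_pos_left hv2 hy
          exact this.trans hg2
      _ ≤ ∫⁻ Z, G (Prod.mk Z ⁻¹' A) ∂P := setLIntegral_le_lintegral _ _
  have hup : (P.prod G) A ≤
      ENNReal.ofReal ((1 / (y * θ)) ^ m * (1 / (1 - θ)) ^ (n' + 1)) := by
    rw [Measure.prod_apply_symm hAo.measurableSet]
    calc ∫⁻ g, P ((fun Z => (Z, g)) ⁻¹' A) ∂G
        ≤ ∫⁻ g, ENNReal.ofReal ((1 / (y * θ)) ^ m) *
            ENNReal.ofReal (Real.exp (θ * ∑ i, Complex.normSq (g i))) ∂G := by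
          apply lintegral_mono
          intro g
          refine (rot gc hgc n' m hm hR y hy g).trans ?_
          beta_reduce
          rw [← ENNReal.ofReal_mul (by positivity)]
          apply ENNReal.ofReal_le_ofReal
          set N : ℝ := ∑ i, Complex.normSq (g i) with hN
          have hN0 : 0 ≤ N := Finset.sum_nonneg fun i _ => Complex.normSq_nonneg _
          have h := Real.pow_div_factorial_le_exp (θ * N) (by positivity) m
          have e : (N / y) ^ m / (m.factorial : ℝ) =
              (1 / (y * θ)) ^ m * ((θ * N) ^ m / (m.factorial : ℝ)) := by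
            rw [← mul_div_assoc, ← mul_pow]
            congr 2
            field_simp
          rw [e]
          exact mul_le_mul_of_nonneg_left h (by positivity)
      _ = ENNReal.ofReal ((1 / (y * θ)) ^ m * (1 / (1 - θ)) ^ (n' + 1)) := by
          rw [lintegral_const_mul', exp_moment gc hgc (n' + 1) θ hθ1,
            ← ENNReal.ofReal_mul (by positivity)]
          exact ENNReal.ofReal_ne_top
  have hfin := hlow.trans hup
  have e1 : P BAD = ENNReal.ofReal (Real.exp (y * x)) *
      (ENNReal.ofReal (Real.exp (-(y * x))) * P BAD) := by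
    rw [← mul_assoc, ← ENNReal.ofReal_mul (Real.exp_pos _).le, ← Real.exp_add, add_neg_cancel,
      Real.exp_zero, ENNReal.ofReal_one, one_mul]
  rw [e1]
  calc _ ≤ ENNReal.ofReal (Real.exp (y * x)) *
        ENNReal.ofReal ((1 / (y * θ)) ^ m * (1 / (1 - θ)) ^ (n' + 1)) := by gcongr
    _ = _ := by
        rw [← ENNReal.ofReal_mul (Real.exp_pos _).le]
        congr 1
        ring

omit hgc in
theorem exp_two_lt : Real.exp 2 < 7.5 := by
  have h1 := Real.exp_one_lt_d9
  have h2 : Real.exp 2 = Real.exp 1 ^ 2 := by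
    rw [← Real.exp_nat_mul]; norm_num
  have h0 := Real.exp_pos 1
  rw [h2]
  nlinarith

/-- For `3 n ≤ rows + 1` the least singular value is at least `n/16` up to probability `20^{-n}`. -/
theorem tail16 {R : Type*} [Fintype R] {n : ℕ} (hn : 1 ≤ n) (hR : 3 * n ≤ Fintype.card R + 1)
    {x : ℝ} (hx : x ≤ (n : ℝ) / 16) :
    (Measure.pi (fun _ : R => Measure.pi (fun _ : Fin n => gc)))
      {Z | ∃ v : Fin n → ℂ, ∑ i, Complex.normSq (v i) = 1 ∧
        ∑ s, Complex.normSq (∑ i, Z s i * v i) < x} ≤ ENNReal.ofReal ((1 / 20) ^ n) := by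
  obtain ⟨n', rfl⟩ : ∃ n', n = n' + 1 := ⟨n - 1, by omega⟩
  have hnpos : (0 : ℝ) < ((n' + 1 : ℕ) : ℝ) := by positivity
  have hmono : (Measure.pi (fun _ : R => Measure.pi (fun _ : Fin (n' + 1) => gc)))
      {Z | ∃ v : Fin (n' + 1) → ℂ, ∑ i, Complex.normSq (v i) = 1 ∧
        ∑ s, Complex.normSq (∑ i, Z s i * v i) < x} ≤
      (Measure.pi (fun _ : R => Measure.pi (fun _ : Fin (n' + 1) => gc)))
      {Z | ∃ v : Fin (n' + 1) → ℂ, ∑ i, Complex.normSq (v i) = 1 ∧
        ∑ s, Complex.normSq (∑ i, Z s i * v i) < ((n' + 1 : ℕ) : ℝ) / 16} := by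
    apply measure_mono
    rintro Z ⟨v, hv1, hv2⟩
    exact ⟨v, hv1, hv2.trans_le hx⟩
  refine hmono.trans ?_
  refine (tailGen gc hgc n' (2 * (n' + 1)) (by omega) (by omega) _ 32 (2 / 3) (by positivity)
    (by norm_num) (by norm_num) (by norm_num)).trans ?_
  apply ENNReal.ofReal_le_ofReal
  have e1 : Real.exp (32 * (((n' + 1 : ℕ) : ℝ) / 16)) = Real.exp 2 ^ (n' + 1) := by
    rw [← Real.exp_nat_mul]; congr 1; ring
  have e2 : ((1 : ℝ) / (32 * (2 / 3))) ^ (2 * (n' + 1)) = ((3 / 64) ^ 2) ^ (n' + 1) := by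
    rw [← pow_mul]; norm_num
  rw [e1, e2, ← mul_pow, ← mul_pow]
  apply pow_le_pow_left₀ (by positivity)
  have := exp_two_lt
  nlinarith

end

end Pool.Agent.H78.KB
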