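import Pool.Agent.H78.KB.Tail
import Pool.Agent.H51.KB.BadI
import Pool.Agent.H97.KB.Point

/-!
# The tail bound with the constant `1/16`, in the form of module V4
-/

set_option autoImplicit false

open MeasureTheory Finset
open scoped ENNReal

namespace Pool.Agent.H78.KB

open H97KB Pool.Agent.H57.KB Pool.Agent.H51.KB

theorem gc_eq : Pool.Agent.H51.KB.gc = (volume : Measure ℂ).withDensity dens := by
  unfold Pool.Agent.H51.KB.gc
  congr 1
  funext z
  unfold gd dens
  rw [Complex.normSq_eq_norm_sq]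

theorem badI16_le {n : ℕ} {x : ℝ} (hx : x ≤ (n : ℝ) / 16) (I : Finset (Fin (4 * n)))
    (hI : I.card ≤ n) : (gm (Fin (4 * n)) n).real (badI n (4 * n) x I) ≤ (1 / 20) ^ n := by
  rcases Nat.eq_zero_or_pos n with h0 | hn
  · subst h0
    rw [pow_zero]
    exact measureReal_le_one
  have hcard : Fintype.card {s // s ∉ I} = 4 * n - I.card := by
    rw [Fintype.card_subtype_compl]
    simp
  have ht := tail16 Pool.Agent.H51.KB.gc gc_eq (R := {s // s ∉ I}) (n := n) hn (by omega) hx
  have ho := (isOpen_ev (R := {s // s ∉ I}) (J := Fin n)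
    (fun v => ∑ i, Complex.normSq (v i) = 1) (fun _ => x)).measurableSet
  rw [← (preserving (n := n) fun s => s ∉ I).measure_preimage ho.nullMeasurableSet] at ht
  have hsub : badI n (4 * n) x I ⊆ (fun (ζ : Fin (4 * n) → Fin n → ℂ) (s : {s // s ∉ I}) => ζ s) ⁻¹'
      {Z | ∃ v : Fin n → ℂ, ∑ i, Complex.normSq (v i) = 1 ∧
        ∑ s, Complex.normSq (∑ i, Z s i * v i) < x} := by
    rintro ζ ⟨v, hv, hlt⟩
    refine ⟨v, ?_, ?_⟩
    · rw [← hv]
      apply Finset.sum_congr rfl
      intro i _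
      rw [Complex.normSq_eq_norm_sq]
    · have e : ∑ s : {s // s ∉ I}, Complex.normSq (∑ i, ζ s i * v i) = ∑ s ∈ Iᶜ, qf ζ s v := by
        have h1 : ∀ s : {s // s ∉ I}, Complex.normSq (∑ i, ζ s i * v i) = qf ζ s v := by
          intro s
          rw [Complex.normSq_eq_norm_sq]
          rfl
        simp_rw [h1]
        rw [← Finset.sum_subtype (Iᶜ) (fun s => by simp) fun s => qf ζ s v]
      show ∑ s : {s // s ∉ I}, Complex.normSq (∑ i, ζ s i * v i) < x
      rw [e]
      exact hlt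
  have h2 : gm (Fin (4 * n)) n (badI n (4 * n) x I) ≤ ENNReal.ofReal ((1 / 20) ^ n) :=
    (measure_mono hsub).trans ht
  rw [Measure.real]
  exact ENNReal.toReal_le_of_le_ofReal (by positivity) h2

theorem tailB16 (n : ℕ) :
    TailB n (4 * n) Pool.Agent.H51.KB.gc ((((1 : ℚ) / 16 : ℚ) : ℝ) * n) ((1 / 20) ^ n) := by
  intro I hI
  refine badI16_le (x := (((1 : ℚ) / 16 : ℚ) : ℝ) * n) ?_ I hI
  push_cast
  linarith

end Pool.Agent.H78.KB
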